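import Pool.Agent.K3h73.TF.Nuc

set_option autoImplicit false

namespace Pool.Agent.K3h64.TF

open FreeGroup Pool.Agent.K3h73.TF Filter
open scoped InnerProductSpace ComplexConjugate Topology

variable {H : Type} [NormedAddCommGroup H] [InnerProductSpace ℂ H] [CompleteSpace H]

lemma mulv (A B : H →L[ℂ] H) (v : H) : (A * B) v = A (B v) := rfl

/-- the resolvent of a selfadjoint operator -/
lemma exists_S (D : H →L[ℂ] H) (hD : star D = D) :
    ∃ S : H →L[ℂ] H, (1 - Complex.I • D) * S = 1 ∧ S * (1 - Complex.I • D) = 1 ∧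
      ∀ v, ‖S v‖ ≤ ‖v‖ := by
  have h1 : IsUnit (1 - Complex.I • D) := by
    have h2 : (-Complex.I) ∉ spectrum ℂ D := by
      intro hz
      have h3 := IsSelfAdjoint.mem_spectrum_eq_re (show IsSelfAdjoint D from hD) hz
      have h4 := congrArg Complex.im h3
      simp at h4
    rw [spectrum.notMem_iff] at h2
    have h5 : (1 - Complex.I • D) = Complex.I • (algebraMap ℂ (H →L[ℂ] H) (-Complex.I) - D) := by
      rw [smul_sub, Algebra.algebraMap_eq_smul_one, smul_smul]
      simp
    rw [h5]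
    exact (IsUnit.smul (Units.mk0 Complex.I Complex.I_ne_zero) h2 :)
  obtain ⟨u, hu⟩ := h1
  refine ⟨↑u⁻¹, by rw [← hu]; simp, by rw [← hu]; simp, fun v => ?_⟩
  set w := (↑u⁻¹ : H →L[ℂ] H) v with hw
  have h6 : (1 - Complex.I • D) w = v := by
    rw [← hu, hw, ← mulv]; simp
  have h7 : ‖w‖ ^ 2 ≤ ‖(1 - Complex.I • D) w‖ ^ 2 := by
    have h8 : (1 - Complex.I • D) w = w - Complex.I • D w := rfl
    rw [h8, @norm_sub_sq ℂ]
    have h9 : RCLike.re ⟪w, Complex.I • D w⟫_ℂ = 0 := by
      rw [inner_smul_right]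
      have h10 : ⟪w, D w⟫_ℂ = conj ⟪w, D w⟫_ℂ := by
        rw [inner_conj_symm]
        conv_lhs => rw [← hD]
        rw [ContinuousLinearMap.star_eq_adjoint, ContinuousLinearMap.adjoint_inner_right]
      have h11 : (⟪w, D w⟫_ℂ).im = 0 := Complex.conj_eq_iff_im.1 h10.symm
      simp [h11]
    rw [h9]
    nlinarith [norm_nonneg (Complex.I • D w)]
  rw [h6] at h7
  exact (abs_le_of_sq_le_sq' h7 (norm_nonneg _)).2

/-- the projection onto finitely many basis vectors -/
noncomputable def Q {ι : Type} (b : HilbertBasis ι ℂ H) (E : Finset ι) : H →L[ℂ] H :=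
  ∑ h ∈ E, (innerSL ℂ (b h)).smulRight (b h)

lemma Q_apply {ι : Type} (b : HilbertBasis ι ℂ H) (E : Finset ι) (v : H) :
    Q b E v = ∑ h ∈ E, ⟪b h, v⟫_ℂ • b h := by
  simp [Q, ContinuousLinearMap.sum_apply]

lemma Q_basis {ι : Type} [DecidableEq ι] (b : HilbertBasis ι ℂ H) (E : Finset ι) (k : ι) :
    Q b E (b k) = if k ∈ E then b k else 0 := by
  rw [Q_apply]
  have h1 : ∀ h, ⟪b h, b k⟫_ℂ = if h = k then 1 else 0 := by
    intro h
    exact orthonormal_iff_ite.1 b.orthonormal h k
  simp_rw [h1]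
  simp

lemma Q_sa {ι : Type} (b : HilbertBasis ι ℂ H) (E : Finset ι) (v w : H) :
    ⟪Q b E v, w⟫_ℂ = ⟪v, Q b E w⟫_ℂ := by
  rw [Q_apply, Q_apply, sum_inner, inner_sum]
  refine Finset.sum_congr rfl (fun h _ => ?_)
  rw [inner_smul_left, inner_smul_right, inner_conj_symm]
  ring

lemma Q_star {ι : Type} (b : HilbertBasis ι ℂ H) (E : Finset ι) : star (Q b E) = Q b E := by
  rw [ContinuousLinearMap.star_eq_adjoint]
  symm
  rw [ContinuousLinearMap.eq_adjoint_iff]
  intro v w
  exact Q_sa b E v w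

lemma Q_idem {ι : Type} (b : HilbertBasis ι ℂ H) (E : Finset ι) (v : H) :
    Q b E (Q b E v) = Q b E v := by
  classical
  conv_lhs => rw [Q_apply b E v, map_sum]
  rw [Q_apply b E v]
  refine Finset.sum_congr rfl (fun h hh => ?_)
  rw [map_smul, Q_basis, if_pos hh]

lemma Q_norm {ι : Type} (b : HilbertBasis ι ℂ H) (E : Finset ι) (v : H) : ‖Q b E v‖ ≤ ‖v‖ := by
  by_cases h0 : ‖Q b E v‖ = 0
  · rw [h0]; exact norm_nonneg _
  have h1 : ‖Q b E v‖ ^ 2 ≤ ‖v‖ * ‖Q b E v‖ := by
    have h2 : (‖Q b E v‖ : ℂ) ^ 2 = ⟪v, Q b E v⟫_ℂ := by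
      have h5 := inner_self_eq_norm_sq_to_K (𝕜 := ℂ) (Q b E v)
      rw [Q_sa, Q_idem] at h5
      exact h5.symm
    have h3 : ‖(‖Q b E v‖ : ℂ) ^ 2‖ ≤ ‖v‖ * ‖Q b E v‖ := by
      rw [h2]; exact norm_inner_le_norm _ _
    rwa [norm_pow, Complex.norm_real, norm_norm] at h3
  have h4 : 0 < ‖Q b E v‖ := lt_of_le_of_ne (norm_nonneg _) (Ne.symm h0)
  nlinarith

lemma Q_opNorm {ι : Type} (b : HilbertBasis ι ℂ H) (E : Finset ι) : ‖Q b E‖ ≤ 1 :=
  ContinuousLinearMap.opNorm_le_bound _ zero_le_one (fun v => by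
    rw [one_mul]; exact Q_norm b E v)

lemma Q_tendsto {ι : Type} (b : HilbertBasis ι ℂ H) (E : ℕ → Finset ι)
    (hE : Tendsto E atTop atTop) (v : H) : Tendsto (fun m => Q b (E m) v) atTop (𝓝 v) := by
  have h1 : HasSum (fun i => ⟪b i, v⟫_ℂ • b i) v := by
    have := b.hasSum_repr v
    simpa [HilbertBasis.repr_apply_apply] using this
  have h2 := h1.comp hE
  refine h2.congr (fun m => ?_)
  simp [Q_apply]

lemma nuc_mul_left {k : H →L[ℂ] H} {c : ℝ} (h : Nuc k c) (A : H →L[ℂ] H) :
    Nuc (A * k) (‖A‖ * c) := h.comp_left A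

lemma nuc_mul_right {k : H →L[ℂ] H} {c : ℝ} (h : Nuc k c) (A : H →L[ℂ] H) :
    Nuc (k * A) (c * ‖A‖) := h.comp_right A

lemma cayley_aux (a b S : H →L[ℂ] H) (ha : star b = a) (hc : a * b = b * a) (h1 : b * S = 1)
    (h2 : S * b = 1) : star (a * S) * (a * S) = 1 ∧ (a * S) * star (a * S) = 1 := by
  have hb : star a = b := by rw [← ha, star_star]
  have h3 : star S * a = 1 := by
    have := congrArg star h1
    rwa [star_mul, ha, star_one] at this
  have h4 : a * star S = 1 := by
    have := congrArg star h2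
    rwa [star_mul, ha, star_one] at this
  rw [star_mul, hb]
  constructor
  · calc star S * b * (a * S) = star S * (b * a) * S := by noncomm_ring
      _ = (star S * a) * (b * S) := by rw [← hc]; noncomm_ring
      _ = 1 := by rw [h3, h1, one_mul]
  · have h5 : S * star S = star S * S := by
      have h7 : S * star S * (a * b) = 1 := by
        calc S * star S * (a * b) = S * (star S * a) * b := by noncomm_ring
          _ = 1 := by rw [h3, mul_one, h2]
      have h6 : (a * b) * (star S * S) = 1 := by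
        rw [hc]
        calc b * a * (star S * S) = b * (a * star S) * S := by noncomm_ring
          _ = 1 := by rw [h4, mul_one, h1]
      calc S * star S = S * star S * ((a * b) * (star S * S)) := by rw [h6, mul_one]
        _ = (S * star S * (a * b)) * (star S * S) := by noncomm_ring
        _ = _ := by rw [h7, one_mul]
    calc a * S * (star S * b) = a * (S * star S) * b := by noncomm_ring
      _ = (a * star S) * (S * b) := by rw [h5]; noncomm_ring
      _ = 1 := by rw [h4, h2, one_mul]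

/-- the unitary of a selfadjoint operator -/
lemma cayley_unitary (D S : H →L[ℂ] H) (hD : star D = D) (h1 : (1 - Complex.I • D) * S = 1)
    (h2 : S * (1 - Complex.I • D) = 1) :
    star ((1 + Complex.I • D) * S) * ((1 + Complex.I • D) * S) = 1 ∧
      ((1 + Complex.I • D) * S) * star ((1 + Complex.I • D) * S) = 1 := by
  refine cayley_aux _ _ S ?_ ?_ h1 h2
  · rw [star_sub, star_one, star_smul, hD]
    simp
  · simp only [mul_add, add_mul, mul_sub, sub_mul, one_mul, mul_one]
    abel

lemma cayley_eq (D S : H →L[ℂ] H) (h1 : (1 - Complex.I • D) * S = 1) :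
    (1 + Complex.I • D) * S = (2 : ℂ) • S - 1 := by
  have h2 : (1 + Complex.I • D) = (2 : ℂ) • 1 - (1 - Complex.I • D) := by
    rw [two_smul]; abel
  rw [h2, sub_mul, h1, smul_mul_assoc, one_mul]

lemma cayley_sub_one (D S : H →L[ℂ] H) (h1 : (1 - Complex.I • D) * S = 1) :
    (1 + Complex.I • D) * S - 1 = (2 * Complex.I) • (D * S) := by
  calc (1 + Complex.I • D) * S - 1 = (1 + Complex.I • D) * S - (1 - Complex.I • D) * S := by rw [h1]
    _ = ((1 + Complex.I • D) - (1 - Complex.I • D)) * S := (sub_mul _ _ _).symm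
    _ = ((2 : ℂ) • (Complex.I • D)) * S := by rw [two_smul]; congr 1; abel
    _ = _ := by rw [smul_smul, smul_mul_assoc]

lemma exists_R (W : H →L[ℂ] H) (c : ℝ) (hk : ‖W - 1‖ ≤ c) (hc0 : 0 ≤ c) (hc : c < 2) :
    ∃ R : H →L[ℂ] H, (W + 1) * R = 1 ∧ R * (W + 1) = 1 ∧ ‖R‖ ≤ 1 / (2 - c) := by
  set t : H →L[ℂ] H := (-(1/2 : ℂ)) • (W - 1) with ht
  have ht1 : ‖t‖ < 1 := by
    rw [ht, norm_smul]
    have : ‖(-(1/2 : ℂ))‖ = 1/2 := by simp
    rw [this]
    linarith
  have hX : W + 1 = (2 : ℂ) • (1 - t) := by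
    rw [ht, smul_sub, smul_smul]
    norm_num
    rw [two_smul]
    abel
  set u := Units.oneSub t ht1 with hu
  have hu1 : (u : H →L[ℂ] H) = 1 - t := rfl
  refine ⟨(1/2 : ℂ) • (↑u⁻¹ : H →L[ℂ] H), ?_, ?_, ?_⟩
  · rw [hX, smul_mul_smul_comm, ← hu1, Units.mul_inv]
    norm_num
  · rw [hX, smul_mul_smul_comm, ← hu1, Units.inv_mul]
    norm_num
  · set R : H →L[ℂ] H := (1/2 : ℂ) • (↑u⁻¹ : H →L[ℂ] H) with hR
    have hXR : (W + 1) * R = 1 := by
      rw [hR, hX, smul_mul_smul_comm, ← hu1, Units.mul_inv]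
      norm_num
    refine ContinuousLinearMap.opNorm_le_bound _ (one_div_nonneg.2 (by linarith)) (fun w => ?_)
    have h1 : (W + 1) (R w) = w := by rw [← mulv, hXR]; rfl
    have h2 : w = (2 : ℂ) • (R w) + (W - 1) (R w) := by
      conv_lhs => rw [← h1]
      change W (R w) + R w = (2 : ℂ) • (R w) + (W (R w) - R w)
      rw [two_smul]; abel
    have h3 : ‖(2 : ℂ) • (R w)‖ ≤ ‖w‖ + ‖(W - 1) (R w)‖ := by
      have : (2 : ℂ) • (R w) = w - (W - 1) (R w) := by
        rw [eq_sub_iff_add_eq]; exact h2.symm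
      rw [this]; exact norm_sub_le _ _
    have h4 : ‖(W - 1) (R w)‖ ≤ c * ‖R w‖ :=
      (ContinuousLinearMap.le_opNorm _ _).trans (by gcongr)
    rw [norm_smul] at h3
    have h5 : ‖(2 : ℂ)‖ = 2 := by simp
    rw [h5] at h3
    rw [div_mul_eq_mul_div, one_mul, le_div_iff₀ (by linarith)]
    nlinarith

/-- the data of the unitary of a nuclear selfadjoint operator -/
theorem t_cay : St_cay := by
  intro H _ _ _ b W c hW1 hW2 hk hc
  have hc0 := hk.nonneg
  have hkn : ‖W - 1‖ ≤ c := hk.norm_le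
  -- the inverse of `W + 1`
  obtain ⟨R, hR1, hR2, hRn⟩ := exists_R W c hkn hc0 hc
  set X := W + 1 with hX
  set k := W - 1 with hkdef
  have hXk : X * k = k * X := by rw [hX, hkdef]; noncomm_ring
  have hRk : R * k = k * R := by
    calc R * k = R * (k * (X * R)) := by rw [hR1, mul_one]
      _ = R * (k * X) * R := by noncomm_ring
      _ = (R * X) * k * R := by rw [← hXk]; noncomm_ring
      _ = k * R := by rw [hR2, one_mul]
  have hsX : star X = star W * X := by
    rw [hX, star_add, star_one, mul_add, hW1, mul_one, add_comm]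
  have hsk : star k = -(star W * k) := by
    rw [hkdef, star_sub, star_one, mul_sub, hW1, mul_one, neg_sub]
  have hsR : star R = R * W := by
    have h1 : star R * star X = 1 := by
      rw [← star_mul, hR1, star_one]
    rw [hsX] at h1
    have h2 : star R * star W = R := by
      calc star R * star W = star R * (star W * (X * R)) := by rw [hR1, mul_one]
        _ = (star R * (star W * X)) * R := by noncomm_ring
        _ = R := by rw [h1, one_mul]
    calc star R = star R * (star W * W) := by rw [hW1, mul_one]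
      _ = (star R * star W) * W := by noncomm_ring
      _ = R * W := by rw [h2]
  set C : H →L[ℂ] H := (-Complex.I) • (k * R) with hC
  have hCs : star C = C := by
    have h1 : star (k * R) = -(k * R) := by
      rw [star_mul, hsR, hsk, ← hRk]
      calc R * W * -(star W * k) = -(R * (W * star W) * k) := by noncomm_ring
        _ = _ := by rw [hW2, mul_one]
    rw [hC, star_smul, h1]
    simp
  have hIC : Complex.I • C = k * R := by
    rw [hC, smul_smul]; simp
  set S : H →L[ℂ] H := (1/2 : ℂ) • X with hS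
  have hS1 : (1 - Complex.I • C) * S = 1 := by
    have h1 : (1 - Complex.I • C) = (2 : ℂ) • R := by
      rw [hIC, ← hR1, ← sub_mul, hX, hkdef, two_smul]
      rw [show W + 1 - (W - 1) = 1 + 1 by abel, add_mul, one_mul]
    rw [h1, hS, smul_mul_smul_comm, hR2]
    norm_num
  have hWS : W = (2 : ℂ) • S - 1 := by
    rw [hS, smul_smul, hX]
    norm_num
  have hCn : Nuc C (c / (2 - c)) := by
    have h1 := (nuc_mul_right hk R).smul (-Complex.I)
    refine Nuc.mono h1 ?_
    rw [norm_neg, Complex.norm_I, one_mul, div_eq_mul_one_div]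
    gcongr
  obtain ⟨E, hE⟩ := Filter.exists_seq_tendsto (atTop : Filter (Finset G))
  have hCm : ∀ m, star (Q b (E m) * C * Q b (E m)) = Q b (E m) * C * Q b (E m) := by
    intro m
    rw [star_mul, star_mul, Q_star, hCs, mul_assoc]
  have hex := fun m => exists_S (Q b (E m) * C * Q b (E m)) (hCm m)
  choose Sm hSm1 hSm2 hSm3 using hex
  have hSmn : ∀ m, ‖Sm m‖ ≤ 1 := fun m =>
    ContinuousLinearMap.opNorm_le_bound _ zero_le_one (fun v => by rw [one_mul]; exact hSm3 m v)
  refine ⟨fun m => (1 + Complex.I • (Q b (E m) * C * Q b (E m))) * Sm m, fun m => ?_, fun v => ?_⟩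
  · obtain ⟨a1, a2⟩ := cayley_unitary _ _ (hCm m) (hSm1 m) (hSm2 m)
    refine ⟨a1, a2, ?_, E m, fun h hh => ?_⟩
    · rw [cayley_sub_one _ _ (hSm1 m)]
      have h1 := (nuc_mul_right (nuc_mul_right (nuc_mul_left hCn (Q b (E m))) (Q b (E m)))
        (Sm m)).smul (2 * Complex.I)
      refine Nuc.mono h1 ?_
      have h2 := Q_opNorm b (E m)
      have h3 := hSmn m
      have h4 : 0 ≤ c / (2 - c) := hCn.nonneg
      have h5 : ‖(2 * Complex.I : ℂ)‖ = 2 := by simp
      rw [h5]
      have h6 : ‖Q b (E m)‖ * (c / (2 - c)) * ‖Q b (E m)‖ * ‖Sm m‖ ≤ 1 * (c / (2 - c)) * 1 * 1 := by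
        gcongr
      calc _ ≤ 2 * (1 * (c / (2 - c)) * 1 * 1) := by linarith
        _ = _ := by ring
    · classical
      have h1 : (Q b (E m) * C * Q b (E m)) (b h) = 0 := by
        rw [mulv, Q_basis, if_neg hh, map_zero]
      have h2 : (1 - Complex.I • (Q b (E m) * C * Q b (E m))) (b h) = b h := by
        change b h - Complex.I • (Q b (E m) * C * Q b (E m)) (b h) = b h
        rw [h1, smul_zero, sub_zero]
      have h3 : Sm m (b h) = b h := by
        conv_lhs => rw [← h2]
        rw [← mulv, hSm2]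
        rfl
      rw [mulv, h3]
      change b h + Complex.I • (Q b (E m) * C * Q b (E m)) (b h) = b h
      rw [h1, smul_zero, add_zero]
  · have h1 : ∀ m, (1 + Complex.I • (Q b (E m) * C * Q b (E m))) * Sm m = (2 : ℂ) • Sm m - 1 :=
      fun m => cayley_eq _ _ (hSm1 m)
    simp only [h1]
    have h2 : Tendsto (fun m => (Q b (E m) * C * Q b (E m)) (S v)) atTop (𝓝 (C (S v))) := by
      have e1 := Q_tendsto b E hE (S v)
      have e2 := Q_tendsto b E hE (C (S v))
      rw [tendsto_iff_norm_sub_tendsto_zero] at e1 e2 ⊢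
      refine squeeze_zero (fun _ => norm_nonneg _) (fun m => ?_)
        (by simpa using (e1.const_mul ‖C‖).add e2)
      have e3 : (Q b (E m) * C * Q b (E m)) (S v) - C (S v) =
          Q b (E m) (C (Q b (E m) (S v) - S v)) + (Q b (E m) (C (S v)) - C (S v)) := by
        rw [mulv, mulv, map_sub, map_sub]; abel
      rw [e3]
      refine (norm_add_le _ _).trans ?_
      gcongr
      exact (Q_norm b (E m) _).trans (ContinuousLinearMap.le_opNorm _ _)
    have h3 : Tendsto (fun m => Sm m v) atTop (𝓝 (S v)) := by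
      rw [tendsto_iff_norm_sub_tendsto_zero] at h2 ⊢
      refine squeeze_zero (fun _ => norm_nonneg _) (fun m => ?_) h2
      have e4 : Sm m v - S v =
          Sm m (Complex.I • ((Q b (E m) * C * Q b (E m)) (S v) - C (S v))) := by
        have e5 : (1 - Complex.I • C) (S v) = v := by rw [← mulv, hS1]; rfl
        have e6 : Sm m ((1 - Complex.I • (Q b (E m) * C * Q b (E m))) (S v)) = S v := by
          rw [← mulv, hSm2]; rfl
        conv_lhs => rw [← e6]
        nth_rewrite 1 [← e5]
        rw [← map_sub]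
        congr 1
        change (S v - Complex.I • C (S v)) -
          (S v - Complex.I • (Q b (E m) * C * Q b (E m)) (S v)) = _
        rw [smul_sub]; abel
      rw [e4]
      refine (hSm3 m _).trans ?_
      rw [norm_smul, Complex.norm_I, one_mul]
    have h4 : W v = (2 : ℂ) • S v - v := by
      conv_lhs => rw [hWS]
      rfl
    rw [h4]
    exact (h3.const_smul (2 : ℂ)).sub_const v

end Pool.Agent.K3h64.TF
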