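import Pool.Agent.K3h73.TF.Stm

set_option autoImplicit false

namespace Pool.Agent.K3h64.TF

open FreeGroup Pool.Agent.K3h73.TF

lemma head_mul (v : G) (w : Bool × Bool) (hv : v ≠ 1) (hvw : v * mk [w] ≠ 1) :
    (toWord (v * mk [w]))[0]? = (toWord v)[0]? := by
  have hred : IsReduced (toWord v) := isReduced_toWord
  rcases List.eq_nil_or_concat (toWord v) with h | ⟨L', z, h⟩
  · exact absurd (toWord_eq_nil_iff.1 h) hv
  · rw [List.concat_eq_append] at h
    have hv' : v = mk (L' ++ [z]) := by rw [← h, mk_toWord]
    have hL' : IsReduced L' := by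
      rw [h] at hred
      exact List.IsChain.left_of_append hred
    by_cases hz : z.1 = w.1 ∧ z.2 ≠ w.2
    · have hw : z = (w.1, !w.2) := by
        rcases z with ⟨z1, z2⟩
        rcases w with ⟨w1, w2⟩
        simp only at hz
        obtain ⟨rfl, h2⟩ := hz
        cases z2 <;> cases w2 <;> simp_all
      have h1 : v * mk [w] = mk L' := by
        rw [hv', mul_mk, List.append_assoc, ← mul_mk, hw]
        have : (mk ([(w.1, !w.2)] ++ [w]) : G) = 1 := by
          have h5 := Quot.sound (Red.Step.not_rev (L₁ := []) (L₂ := []) (x := w.1) (b := w.2))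
          exact h5
        rw [this, mul_one]
      rw [h1, toWord_mk, hL'.reduce_eq, h]
      rcases L' with _ | ⟨a, L''⟩
      · exfalso; apply hvw; rw [h1]; rfl
      · simp
    · have h2 : IsReduced (L' ++ [z] ++ [w]) := by
        rw [h] at hred
        refine List.IsChain.append hred (by simp) ?_
        intro x hx y hy
        simp at hx hy
        subst hx; subst hy
        intro h3
        by_contra h4
        exact hz ⟨h3, h4⟩
      rw [hv', mul_mk, toWord_mk, toWord_mk, h2.reduce_eq]
      rw [h] at hred
      rw [hred.reduce_eq]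
      rcases L' with _ | ⟨a, L''⟩ <;> simp

lemma of_inv_eq (j : Bool) : ((of j : G))⁻¹ = mk [(j, false)] := rfl

open Classical in
/-- indicator of the set of elements starting with the inverse of the generator `i` -/
noncomputable def ind (i : Bool) (v : G) : ℂ := if v ∈ startsWith (i, false) then 1 else 0

lemma ind_mul (i j : Bool) (v : G) :
    ind i (v * (of j)⁻¹) = ind i v + (if v = 1 ∧ i = j then 1 else 0) := by
  by_cases hv : v = 1
  · subst hv
    have h1 : ind i (1 : G) = 0 := by
      unfold ind
      rw [if_neg]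
      simp [startsWith]
    have h2 : ind i ((1 : G) * (of j)⁻¹) = if i = j then 1 else 0 := by
      unfold ind
      rw [one_mul, of_inv_eq]
      congr 1
      simp only [startsWith, Set.mem_ofPred_eq, toWord_mk, reduce_singleton]
      simp [eq_comm]
    rw [h1, h2]
    simp
  · rw [if_neg (fun h => hv h.1), add_zero]
    by_cases hvw : v * (of j)⁻¹ = 1
    · rw [hvw]
      have h3 : v = of j := mul_inv_eq_one.1 hvw
      unfold ind
      rw [if_neg, if_neg]
      · rw [h3]; simp [startsWith]
      · simp [startsWith]
    · have := head_mul v (j, false) hv (by rwa [← of_inv_eq])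
      have h6 : (v * (of j)⁻¹ ∈ startsWith (i, false)) ↔ (v ∈ startsWith (i, false)) := by
        rw [of_inv_eq]
        simp only [startsWith, Set.mem_ofPred_eq]
        rw [this]
      unfold ind
      by_cases h7 : v ∈ startsWith (i, false)
      · rw [if_pos h7, if_pos (h6.2 h7)]
      · rw [if_neg h7, if_neg (fun h => h7 (h6.1 h))]

lemma tree_step (q : G → ℂ) (w : G) (j : Bool) (a : ℂ) :
    HasSum (fun z : Bool × G => (ind z.1 (z.2 * w⁻¹) - ind z.1 z.2) * (q (of z.1 * z.2) - q z.2)) a ↔
    HasSum (fun z : Bool × G => (ind z.1 (z.2 * (of j * w)⁻¹) - ind z.1 z.2) *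
      (q (of z.1 * z.2) - q z.2)) (a + (q (of j * w) - q w)) := by
  have h1 : HasSum (fun z : Bool × G => if z = (j, w) then (q (of j * w) - q w) else 0)
      (q (of j * w) - q w) := by
    convert hasSum_ite_eq (j, w) (q (of j * w) - q w) using 1
  have h2 : (fun z : Bool × G => (ind z.1 (z.2 * (of j * w)⁻¹) - ind z.1 z.2) *
      (q (of z.1 * z.2) - q z.2)) = fun z : Bool × G =>
      (ind z.1 (z.2 * w⁻¹) - ind z.1 z.2) * (q (of z.1 * z.2) - q z.2) +
        (if z = (j, w) then (q (of j * w) - q w) else 0) := by
    funext ⟨i, u⟩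
    simp only
    rw [mul_inv_rev, ← mul_assoc, ind_mul]
    by_cases hz : (i, u) = (j, w)
    · rw [if_pos hz]
      obtain ⟨rfl, rfl⟩ := Prod.mk.inj hz
      simp
      ring
    · rw [if_neg hz, if_neg]
      · ring
      · rintro ⟨h3, h4⟩
        apply hz
        rw [h4, mul_inv_eq_one.1 h3]
  rw [h2]
  constructor
  · intro h
    exact h.add h1
  · intro h
    have := h.sub h1
    simpa using this

lemma tree (q : G → ℂ) (w : G) :
    HasSum (fun z : Bool × G => (ind z.1 (z.2 * w⁻¹) - ind z.1 z.2) *
      (q (of z.1 * z.2) - q z.2)) (q w - q 1) := by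
  have key : ∀ L : List (Bool × Bool), HasSum (fun z : Bool × G =>
      (ind z.1 (z.2 * (mk L : G)⁻¹) - ind z.1 z.2) * (q (of z.1 * z.2) - q z.2))
        (q (mk L) - q 1) := by
    intro L
    induction L with
    | nil =>
      have h : (mk [] : G) = 1 := rfl
      rw [h]
      simpa using (hasSum_zero : HasSum (fun _ : Bool × G => (0 : ℂ)) 0)
    | cons a L ih =>
      rcases a with ⟨j, b⟩
      have h3 : (mk ((j, b) :: L) : G) = mk [(j, b)] * mk L := by
        rw [mul_mk]; rfl
      cases b
      · have h4 : (mk [(j, false)] : G) = (of j)⁻¹ := rfl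
        rw [h3, h4]
        rw [tree_step q _ j]
        have h5 : (of j : G) * ((of j)⁻¹ * mk L) = mk L := by group
        rw [h5]
        convert ih using 1
        ring
      · have h4 : (mk [(j, true)] : G) = of j := rfl
        rw [h3, h4]
        have := (tree_step q (mk L) j _).1 ih
        convert this using 1
        ring
  have := key (toWord w)
  rwa [mk_toWord] at this

theorem t_mt : St_mt := by
  intro p x r F hcol hrow hF
  -- column differences
  have hD : ∀ (i : Bool) (h : G), HasSum (fun u => p (of i * u) (of i * h) - p u h)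
      (x (of i * h) - x h) := by
    intro i h
    refine HasSum.sub ?_ (hcol h)
    exact (Equiv.mulLeft (of i : G)).hasSum_iff.2 (hcol (of i * h))
  have hrow0 : ∀ (i : Bool) (u : G), ∑ h ∈ F, (p (of i * u) (of i * h) - p u h) = 0 := by
    intro i u
    have h1 : HasSum (fun h => p (of i * u) (of i * h) - p u h) (r - r) := by
      refine HasSum.sub ?_ (hrow u)
      exact (Equiv.mulLeft (of i : G)).hasSum_iff.2 (hrow (of i * u))
    rw [sub_self] at h1
    have h2 : HasSum (fun h => p (of i * u) (of i * h) - p u h)
        (∑ h ∈ F, (p (of i * u) (of i * h) - p u h)) :=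
      hasSum_sum_of_ne_finset_zero (fun h hh => by rw [hF i u h hh, sub_self])
    exact h2.unique h1
  -- the sums with the indicator
  have hsum1 : ∀ (i : Bool) (h : G), Summable fun u =>
      ind i u * (p (of i * u) (of i * h) - p u h) := by
    intro i h
    refine Summable.of_norm_bounded (hD i h).summable.norm ?_
    intro u
    rw [norm_mul]
    have : ‖ind i u‖ ≤ 1 := by
      unfold ind; split_ifs <;> simp
    exact mul_le_of_le_one_left (norm_nonneg _) this
  set s : Bool → G → ℂ := fun i h => ind i h * (x (of i * h) - x h) -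
    ∑' u, ind i u * (p (of i * u) (of i * h) - p u h) with hs
  have hsum2 : ∀ (i : Bool) (h : G), HasSum (fun u =>
      (ind i h - ind i u) * (p (of i * u) (of i * h) - p u h)) (s i h) := by
    intro i h
    have h1 := ((hD i h).mul_left (ind i h)).sub (hsum1 i h).hasSum
    simpa only [sub_mul] using h1
  have hS : HasSum (fun z : Bool × G × G => (ind z.1 z.2.2 - ind z.1 z.2.1) *
      (p (of z.1 * z.2.1) (of z.1 * z.2.2) - p z.2.1 z.2.2)) (∑ i : Bool, ∑ h ∈ F, s i h) := by
    classical
    have h1 : HasSum (fun z : Bool × G × G => ∑ i : Bool, ∑ h ∈ F,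
        (if z.1 = i ∧ z.2.2 = h then (ind z.1 z.2.2 - ind z.1 z.2.1) *
          (p (of z.1 * z.2.1) (of z.1 * z.2.2) - p z.2.1 z.2.2) else 0))
          (∑ i : Bool, ∑ h ∈ F, s i h) := by
      refine hasSum_sum (fun i _ => hasSum_sum (fun h _ => ?_))
      have hinj : Function.Injective (fun u : G => ((i, u, h) : Bool × G × G)) := by
        intro a b hab
        simpa using hab
      refine (hinj.hasSum_iff ?_).1 ?_
      · rintro ⟨i', u, h'⟩ hz
        rw [if_neg]
        rintro ⟨h2, h3⟩
        simp only at h2 h3
        subst h2; subst h3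
        exact hz ⟨u, rfl⟩
      · have := hsum2 i h
        convert this using 1
        funext u
        simp
    convert h1 using 1
    funext ⟨i, u, h⟩
    simp only
    rw [Finset.sum_eq_single i]
    · by_cases hh : h ∈ F
      · rw [Finset.sum_eq_single h]
        · simp
        · intro b _ hb
          rw [if_neg]
          rintro ⟨_, h3⟩
          exact hb h3.symm
        · intro h3; exact absurd hh h3
      · rw [hF i u h hh, sub_self, mul_zero]
        symm
        apply Finset.sum_eq_zero
        intro b _
        split_ifs <;> rfl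
    · intro b _ hb
      apply Finset.sum_eq_zero
      intro c _
      rw [if_neg]
      rintro ⟨h3, _⟩
      exact hb h3.symm
    · intro h3; exact absurd (Finset.mem_univ _) h3
  -- regroup along `g = u⁻¹ h`
  let e : G × (Bool × G) ≃ Bool × G × G :=
    { toFun := fun z => (z.2.1, z.2.2, z.2.2 * z.1)
      invFun := fun z => (z.2.1⁻¹ * z.2.2, z.1, z.2.1)
      left_inv := by rintro ⟨g, i, u⟩; simp
      right_inv := by rintro ⟨i, u, h⟩; simp }
  have hT := e.hasSum_iff.2 hS
  have hU := hT.prod_fiberwise (g := fun g => p g⁻¹ 1 - p 1 g) (by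
    intro g
    have h1 := tree (fun u => p u (u * g)) g⁻¹
    convert h1 using 1
    · funext ⟨i, u⟩
      simp [e, mul_assoc]
    · simp)
  have hV : HasSum (fun g => p g⁻¹ 1 - p 1 g) (x 1 - r) := by
    refine HasSum.sub ?_ (hrow 1)
    exact (Equiv.inv G).hasSum_iff.2 (hcol 1)
  rw [hV.unique hU]
  have hfin : ∀ i : Bool, ∑ h ∈ F, s i h = ∑ h ∈ F,
      (startsWith (i, false)).indicator (fun h => x (of i * h) - x h) h := by
    intro i
    simp only [hs]
    rw [Finset.sum_sub_distrib]
    have h1 : ∑ h ∈ F, ∑' u, ind i u * (p (of i * u) (of i * h) - p u h) = 0 := by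
      rw [← Summable.tsum_finsetSum (fun h _ => hsum1 i h)]
      have : (fun u => ∑ h ∈ F, ind i u * (p (of i * u) (of i * h) - p u h)) = fun _ => 0 := by
        funext u
        rw [← Finset.mul_sum, hrow0, mul_zero]
      rw [this, tsum_zero]
    rw [h1, sub_zero]
    refine Finset.sum_congr rfl (fun h _ => ?_)
    unfold ind Set.indicator
    split_ifs <;> simp
  exact Finset.sum_congr rfl (fun i _ => hfin i)

end Pool.Agent.K3h64.TF
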